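import Pool.Agent.J4H50.TT.Cls

set_option autoImplicit false
set_option linter.unusedSectionVars false
set_option linter.unusedVariables false
set_option linter.unusedSimpArgs false

/-! # The monodromy conjecture for the class `TSZ` -/

namespace Pool.Agent.J4H50.TT

open Pool.Agent.W574.SM Pool.Agent.N103 Pool.Agent.N103.V Pool.Agent.Y229
open Pool.Agent.J4H50.NI (LEv CEq LEv_jet KI_F KI_of_Ev Ev_of_KI)
open Pool.Agent.J4H50.IG (Ord mI mem_m_iff cc_aeval)
open Pool.Agent.Y229.PS (IsFormalBFunction coordB formal_of_unit local_of_formal formal_of_local)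
open Pool.Agent.H628R4.TP

section Jet

variable {σ : Type} [Fintype σ] [DecidableEq σ] {F F' : MvPolynomial σ ℂ} {Z : ℕ → RatFunc ℂ}

theorem good_jet (hF : Good F 0 Z) (hj : ∀ n, CEq F' F n) : Good F' 0 Z := by
  have hne : F' ≠ 0 := by
    rintro rfl
    apply hF.ne
    ext m
    obtain ⟨ψ, v, hψ, hv, h⟩ := hj (m.degree + 1)
    rw [map_zero, mul_zero, zero_sub] at h
    have h1 := (MvPolynomial.mem_pow_idealOfVars_iff' _ _).1 h m (Nat.lt_succ_self _)
    rw [MvPolynomial.coeff_neg, neg_eq_zero] at h1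
    rw [h1, MvPolynomial.coeff_zero]
  have h0 : MvPolynomial.eval 0 F' = 0 := by
    obtain ⟨ψ, v, hψ, hv, h⟩ := hj 1
    have hF0 : MvPolynomial.constantCoeff F = 0 := by
      rw [← MvPolynomial.eval_zero]
      exact hF.zero
    rw [pow_one, mem_m_iff, map_sub, map_mul, cc_aeval ψ hψ.1, hF0, sub_zero] at h
    rw [MvPolynomial.eval_zero]
    exact (hv.mul_right_eq_zero).1 h
  have key : ∀ s : ℂ, ¬ LEv 0 F s → ¬ LEv 0 F' s := fun s h h' => h (LEv_jet s hne h' hj)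
  exact good_of hne h0 hF.re hF.one (fun e he s hs => key s (hF.nhigh he hs))
    (fun s hs => key s (hF.nlow hs))

end Jet

section Swh

variable {σ : Type} [Fintype σ] [Nonempty σ]

theorem swh_ne {G0 G1 : MvPolynomial σ ℂ} {w : σ → ℕ} {D : ℕ}
    (hG0 : G0.IsWeightedHomogeneous w D) (hG1 : Ord w (D + 1) G1)
    (hz : ∀ z : σ → ℂ, (∀ i, MvPolynomial.eval z (MvPolynomial.pderiv i G0) = 0) → z = 0) :
    G0 + G1 ≠ 0 := by
  intro h
  have h1 : G0 = 0 := by
    have h2 := congrArg (MvPolynomial.weightedHomogeneousComponent w D) h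
    rw [map_add, map_zero, hG1.comp (Nat.lt_succ_self D), add_zero] at h2
    rwa [hG0.weightedHomogeneousComponent_same] at h2
  have h2 := hz 1 (fun i => by rw [h1, map_zero, map_zero])
  obtain ⟨i⟩ := ‹Nonempty σ›
  have h3 := congrFun h2 i
  exact one_ne_zero h3

theorem swh_zero {G0 G1 : MvPolynomial σ ℂ} {w : σ → ℕ} {D : ℕ} (hD : 0 < D)
    (hG0 : G0.IsWeightedHomogeneous w D) (hG1 : Ord w (D + 1) G1) :
    MvPolynomial.eval 0 (G0 + G1) = 0 := by
  have h1 : MvPolynomial.constantCoeff G0 = 0 := by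
    by_contra hne
    rw [MvPolynomial.constantCoeff_eq] at hne
    have h2 := hG0 hne
    rw [map_zero] at h2
    omega
  have h2 : MvPolynomial.constantCoeff G1 = 0 := by
    by_contra hne
    rw [MvPolynomial.constantCoeff_eq] at hne
    have h2 := hG1 0 hne
    rw [map_zero] at h2
    omega
  rw [MvPolynomial.eval_zero, map_add, h1, h2, add_zero]

/-- the denominator -/
theorem den_eq (W D : ℕ) : algebraMap (Polynomial ℂ) (RatFunc ℂ)
    (Polynomial.C (W : ℂ) + Polynomial.C (D : ℂ) * Polynomial.X) =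
      (W : RatFunc ℂ) + (D : RatFunc ℂ) * RatFunc.X := by
  rw [map_add, map_mul, RatFunc.algebraMap_X, RatFunc.algebraMap_C, RatFunc.algebraMap_C,
    map_natCast, map_natCast]

theorem den_inv {W D : ℕ} {s : ℂ} (h : (W : ℂ) + D * s ≠ 0) :
    ((W : RatFunc ℂ) + (D : RatFunc ℂ) * RatFunc.X)⁻¹ ∈ Reg s := by
  rw [← den_eq]
  apply Pool.Agent.N103.V.inv_mem
  simpa using h

theorem den_ne {W : ℕ} (hW : 0 < W) (D : ℕ) :
    ((W : RatFunc ℂ) + (D : RatFunc ℂ) * RatFunc.X) ≠ 0 := by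
  rw [← den_eq]
  apply RatFunc.algebraMap_ne_zero
  intro h2
  have h3 := congrArg (Polynomial.eval 0) h2
  simp at h3
  omega

theorem den_re {W D : ℕ} (hW : 0 < W) {s : ℂ} (hs : 0 ≤ s.re) : (W : ℂ) + D * s ≠ 0 := by
  intro h
  have h1 := congrArg Complex.re h
  rw [Complex.add_re, Complex.mul_re, Complex.natCast_re, Complex.natCast_re, Complex.natCast_im,
    zero_mul, sub_zero, Complex.zero_re] at h1
  have h2 : (0 : ℝ) < W := by exact_mod_cast hW
  have h3 : 0 ≤ (D : ℝ) * s.re := mul_nonneg (Nat.cast_nonneg D) hs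
  linarith

theorem good_swh (G0 G1 : MvPolynomial σ ℂ) (w : σ → ℕ) (D : ℕ)
    (hw : ∀ i, 0 < w i) (hD : 0 < D) (hG0 : G0.IsWeightedHomogeneous w D)
    (hG1 : Ord w (D + 1) G1) (h0 : ∀ i, MvPolynomial.constantCoeff (MvPolynomial.pderiv i G0) = 0)
    (h1 : ∀ i, MvPolynomial.constantCoeff (MvPolynomial.pderiv i G1) = 0)
    (hz : ∀ z : σ → ℂ, (∀ i, MvPolynomial.eval z (MvPolynomial.pderiv i G0) = 0) → z = 0) :
    Good (G0 + G1) 0 (swZ w D) := by
  have hne := swh_ne hG0 hG1 hz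
  have hL := not_LEv_swh G0 G1 w D hw hD hG0 hG1 h0 h1 hz hne
  have hW : 0 < ∑ i, w i := Finset.sum_pos (fun i _ => hw i) Finset.univ_nonempty
  set W := ∑ i, w i with hWd
  have hDc : (D : ℂ) ≠ 0 := Nat.cast_ne_zero.2 hD.ne'
  have hpole : ∀ s : ℂ, ((W : RatFunc ℂ) + (D : RatFunc ℂ) * RatFunc.X)⁻¹ ∉ Reg s →
      ¬ LEv 0 (G0 + G1) s := by
    intro s hs
    have h2 : (W : ℂ) + D * s = 0 := by
      by_contra h3
      exact hs (den_inv h3)
    have h3 : s = -((W : ℂ) / (D : ℂ)) := by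
      field_simp
      linear_combination h2
    rw [h3]
    exact hL
  have hCm : ∀ (s c : ℂ), RatFunc.C c ∈ Reg s := fun s c => C_reg s c
  have hWm : ∀ s : ℂ, ((W : ℕ) : RatFunc ℂ) ∈ Reg s := fun s => natCast_mem _ _
  have hX1 := X1_ne
  have hd := den_ne hW D
  have e1 : swZ w D 1 = (RatFunc.C ((AE w D 1 : ℚ) : ℂ) + ((W : RatFunc ℂ) -
      RatFunc.C ((AE w D 1 : ℚ) : ℂ)) / (RatFunc.X + 1)) /
        ((W : RatFunc ℂ) + (D : RatFunc ℂ) * RatFunc.X) := by
    rw [swZ, if_pos rfl]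
  have e2 : ∀ e, 2 ≤ e → swZ w D e = RatFunc.C ((AE w D e : ℚ) : ℂ) *
        ((W : RatFunc ℂ) + (D : RatFunc ℂ) * RatFunc.X)⁻¹ := by
    intro e he
    rw [swZ, if_neg (by omega), div_eq_mul_inv]
  have e3 : (RatFunc.X + 1) * swZ w D 1 = (RatFunc.C ((AE w D 1 : ℚ) : ℂ) * RatFunc.X +
      (W : RatFunc ℂ)) * ((W : RatFunc ℂ) + (D : RatFunc ℂ) * RatFunc.X)⁻¹ := by
    rw [e1]
    field_simp
    ring
  refine good_of hne (swh_zero hD hG0 hG1) ?_ ?_ ?_ ?_
  · intro e he s hs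
    by_cases he1 : e = 1
    · subst he1
      refine of_X1 (re_ne hs) ?_
      rw [e3]
      exact (Reg s).mul_mem ((Reg s).add_mem ((Reg s).mul_mem (hCm s _) (X_mem s)) (hWm s))
        (den_inv (den_re hW hs))
    · rw [e2 e (by omega)]
      exact (Reg s).mul_mem (hCm s _) (den_inv (den_re hW hs))
  · refine ⟨(RatFunc.C ((AE w D 1 : ℚ) : ℂ) - (W : RatFunc ℂ) - (D : RatFunc ℂ) -
      (D : RatFunc ℂ) * RatFunc.X) * ((1 / (RatFunc.X + 1)) *
        ((W : RatFunc ℂ) + (D : RatFunc ℂ) * RatFunc.X)⁻¹), ?_, ?_⟩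
    · refine (Reg 0).mul_mem ((Reg 0).sub_mem ((Reg 0).sub_mem ((Reg 0).sub_mem (hCm 0 _) (hWm 0))
        (natCast_mem _ _)) ((Reg 0).mul_mem (natCast_mem _ _) (X_mem 0))) ((Reg 0).mul_mem
          (X1_inv (by norm_num)) (den_inv (den_re hW (le_of_eq Complex.zero_re.symm))))
    · have e4 : swZ w D 1 = (1 / (RatFunc.X + 1)) * ((RatFunc.X + 1) * swZ w D 1) := by
        field_simp
      have e5 := mul_inv_cancel₀ hd
      have e6 : (1 : RatFunc ℂ) / (RatFunc.X + 1) * (RatFunc.X + 1) = 1 :=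
        one_div_mul_cancel hX1
      rw [e4, e3]
      generalize ((W : RatFunc ℂ) + (D : RatFunc ℂ) * RatFunc.X)⁻¹ = y at *
      generalize (1 : RatFunc ℂ) / (RatFunc.X + 1) = z at *
      linear_combination e6 + (z * (RatFunc.X + 1)) * e5
  · intro e he s hs
    refine hpole s fun h2 => hs ?_
    rw [e2 e he]
    exact (Reg s).mul_mem (hCm s _) h2
  · intro s hs
    refine hpole s fun h2 => hs ?_
    rw [e3]
    exact (Reg s).mul_mem ((Reg s).add_mem ((Reg s).mul_mem (hCm s _) (X_mem s)) (hWm s)) h2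

end Swh

/-- **The properties of the zeta functions of the class.** -/
theorem tsz_good {σ : Type} {F : MvPolynomial σ ℂ} {p : σ → ℂ} {Z : ℕ → RatFunc ℂ}
    (h : TSZ σ F p Z) : Good F p Z := by
  induction h with
  | smooth F p h0 i h1 => exact good_smooth F p h0 i h1
  | lin h f a ha hF P c h0 Z hZ => exact good_lin h f a ha hF P c h0 Z hZ
  | swh G0 G1 w D hw hD hG0 hG1 h0 h1 hz => exact good_swh G0 G1 w D hw hD hG0 hG1 h0 h1 hz
  | sum F G p q Z Z' _ _ M _ _ w w' hw hw' ihF ihG => exact good_sum ihF ihG hw hw'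
  | mul F G p q Z Z' _ _ ihF ihG => exact good_mul ihF ihG
  | pow k hk G p Z _ ih => exact good_pow hk ih
  | extra F p q Z _ ih => exact good_extra ih q
  | ren ε F p Z _ ih => exact good_ren ih ε
  | jet F F' Z _ hj ih => exact good_jet ih hj

/-- the zeta functions of a germ -/
theorem ts_reg {N : ℕ} {f : MvPowerSeries (Fin N) ℂ} {σ : Type} {F : MvPolynomial σ ℂ}
    {Z : ℕ → RatFunc ℂ} (hZ : TSZ σ F 0 Z) (hf : BecomesAt f F) {b : Polynomial ℂ}
    (hb : IsFormalBFunction f b) {e : ℕ} (he : 1 ≤ e) {s : ℂ} (hs : b.eval s ≠ 0) :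
    Z e ∈ Reg s := by
  have hG := tsz_good hZ
  obtain ⟨ε, φ, u, hφ, hφ0, hu, h3⟩ := hf
  obtain ⟨u, rfl⟩ := hu
  have h4 : IsLocalBFunction (MvPolynomial.rename ε F) b := by
    refine local_of_formal (formal_of_unit (Units.inv_mul u) ?_)
    rw [← h3]
    exact coordB hφ hφ0 hb
  have hinj := MvPolynomial.rename_injective ε ε.injective (R := ℂ)
  have hne : MvPolynomial.rename ε F ≠ 0 := by
    intro h5
    exact hG.ne (hinj (by rw [h5, map_zero]))
  obtain ⟨H, hH, hHb⟩ := heq_of_local _ hne b h4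
  have hH2 : MvPolynomial.eval (0 : σ → ℂ) (MvPolynomial.rename ε.symm H) ≠ 0 := by
    rw [MvPolynomial.eval_rename]
    have : ((0 : σ → ℂ) ∘ ε.symm) = 0 := rfl
    rw [this, MvPolynomial.eval_zero]
    exact hH
  refine hG.all he hH2 (ev_rename ε (Ev_of_heq hne hHb hs)) ?_
  rintro rfl
  refine hs (root_minus_one (p := 0) hne ?_ ?_ hHb)
  · rw [MvPolynomial.eval_rename]
    exact hG.zero
  · rw [MvPolynomial.eval_zero]
    exact hH

/-- **The local theorem.** -/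
theorem ts_local {N : ℕ} (f : MvPowerSeries (Fin N) ℂ) {σ : Type} (F : MvPolynomial σ ℂ)
    (hf : BecomesAt f F) (Z : ℕ → RatFunc ℂ) (hZ : TSZ σ F 0 Z) (b : Polynomial ℂ)
    (hb : IsFormalBFunction f b) (e : ℕ) (he : 1 ≤ e) (s : ℂ)
    (hs : (Z e).denom.eval s = 0) : b.eval s = 0 := by
  by_contra hne
  exact Reg_denom s _ (ts_reg hZ hf hb he hne) hs

end Pool.Agent.J4H50.TT
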