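import Pool.Agent.J4H50.TT.TSum

set_option autoImplicit false
set_option linter.unusedSectionVars false
set_option linter.unusedVariables false

/-! # No local functional equation at a product in separate variables -/

namespace Pool.Agent.J4H50.TT

open MvPolynomial Pool.Agent.J4H50.NI
open Pool.Agent.N103.V (Ev)
open Pool.Agent.N138.BF (tensE tensE_apply prodE_ind prodE_ext mulEl mulEr pdEl pdEr conv
  conv_apply pdE_ll pdE_rr pdE_lr pdE_rl)
open scoped TensorProduct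

section Two

variable {σ τ : Type}

/-- the product of two families -/
noncomputable def del (α : ℕ → MvPolynomial σ ℂ →ₗ[ℂ] ℂ) (β : ℕ → MvPolynomial τ ℂ →ₗ[ℂ] ℂ)
    (m : ℕ) : MvPolynomial (σ ⊕ τ) ℂ →ₗ[ℂ] ℂ :=
  (LinearMap.mul' ℂ ℂ).comp (tensE (α m) (β m))

theorem del_apply (α : ℕ → MvPolynomial σ ℂ →ₗ[ℂ] ℂ)
    (β : ℕ → MvPolynomial τ ℂ →ₗ[ℂ] ℂ) (m : ℕ) (u : MvPolynomial σ ℂ) (v : MvPolynomial τ ℂ) :
    del α β m (rename Sum.inl u * rename Sum.inr v) = α m u * β m v := by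
  rw [del, LinearMap.comp_apply, tensE_apply, LinearMap.mul'_apply]

theorem del_mu (α : ℕ → MvPolynomial σ ℂ →ₗ[ℂ] ℂ)
    (β : ℕ → MvPolynomial τ ℂ →ₗ[ℂ] ℂ) (m : ℕ) (u : MvPolynomial σ ℂ) (v : MvPolynomial τ ℂ)
    (q : MvPolynomial (σ ⊕ τ) ℂ) :
    del α β m ((rename Sum.inl u * rename Sum.inr v) * q) = del (mu u α) (mu v β) m q := by
  refine prodE_ind (p := fun q => del α β m ((rename Sum.inl u * rename Sum.inr v) * q) =
      del (mu u α) (mu v β) m q) (fun u' v' => ?_) (fun x y hx hy => ?_) q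
  · have e : (rename Sum.inl u * rename Sum.inr v) * (rename Sum.inl u' * rename Sum.inr v') =
        (rename Sum.inl (u * u') * rename Sum.inr (v * v') : MvPolynomial (σ ⊕ τ) ℂ) := by
      rw [map_mul, map_mul]
      ring
    rw [e, del_apply, del_apply]
    rfl
  · rw [mul_add, map_add, map_add, hx, hy]

theorem del_shift {F : MvPolynomial σ ℂ} {G : MvPolynomial τ ℂ}
    {α : ℕ → MvPolynomial σ ℂ →ₗ[ℂ] ℂ} {β : ℕ → MvPolynomial τ ℂ →ₗ[ℂ] ℂ}
    (hα : Sft F α) (hβ : Sft G β) (m : ℕ) (q : MvPolynomial (σ ⊕ τ) ℂ) :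
    del α β (m + 1) ((rename Sum.inl F * rename Sum.inr G) * q) = del α β m q := by
  refine prodE_ind (p := fun q => del α β (m + 1) ((rename Sum.inl F * rename Sum.inr G) * q) =
    del α β m q) (fun u v => ?_) (fun x y hx hy => ?_) q
  · rw [del_mu, del_apply, mu_apply, mu_apply, hα, hβ, del_apply]
  · rw [mul_add, map_add, map_add, hx, hy]

theorem del_dl {s : ℂ} {F : MvPolynomial σ ℂ} {G : MvPolynomial τ ℂ}
    {α : ℕ → MvPolynomial σ ℂ →ₗ[ℂ] ℂ} {β : ℕ → MvPolynomial τ ℂ →ₗ[ℂ] ℂ}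
    (hβ : Sft G β) (i : σ) (m : ℕ) (q : MvPolynomial (σ ⊕ τ) ℂ) :
    del α β (m + 1) (SS s (rename Sum.inl F * rename Sum.inr G) m (Sum.inl i) q) =
      del (de s F i α) β m q := by
  refine prodE_ind (p := fun q => del α β (m + 1)
    (SS s (rename Sum.inl F * rename Sum.inr G) m (Sum.inl i) q) =
      del (de s F i α) β m q) (fun u v => ?_) (fun x y hx hy => ?_) q
  · have e : SS s (rename Sum.inl F * rename Sum.inr G) m (Sum.inl i)
        (rename Sum.inl u * rename Sum.inr v) =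
        (rename Sum.inl (SS s F m i u) * rename Sum.inr (G * v) : MvPolynomial (σ ⊕ τ) ℂ) := by
      unfold SS
      rw [pdEl, pdEl, map_add, map_mul, map_mul, map_mul, rename_C, map_mul]
      ring
    rw [e, del_apply, del_apply, hβ, de_apply]
  · have e : SS s (rename Sum.inl F * rename Sum.inr G) m (Sum.inl i) (x + y) =
        SS s (rename Sum.inl F * rename Sum.inr G) m (Sum.inl i) x +
          SS s (rename Sum.inl F * rename Sum.inr G : MvPolynomial (σ ⊕ τ) ℂ) m (Sum.inl i) y := by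
      unfold SS
      rw [map_add]
      ring
    rw [e, map_add, map_add, hx, hy]

theorem del_dr {s : ℂ} {F : MvPolynomial σ ℂ} {G : MvPolynomial τ ℂ}
    {α : ℕ → MvPolynomial σ ℂ →ₗ[ℂ] ℂ} {β : ℕ → MvPolynomial τ ℂ →ₗ[ℂ] ℂ}
    (hα : Sft F α) (i : τ) (m : ℕ) (q : MvPolynomial (σ ⊕ τ) ℂ) :
    del α β (m + 1) (SS s (rename Sum.inl F * rename Sum.inr G) m (Sum.inr i) q) =
      del α (de s G i β) m q := by
  refine prodE_ind (p := fun q => del α β (m + 1)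
    (SS s (rename Sum.inl F * rename Sum.inr G) m (Sum.inr i) q) =
      del α (de s G i β) m q) (fun u v => ?_) (fun x y hx hy => ?_) q
  · have e : SS s (rename Sum.inl F * rename Sum.inr G) m (Sum.inr i)
        (rename Sum.inl u * rename Sum.inr v) =
        (rename Sum.inl (F * u) * rename Sum.inr (SS s G m i v) : MvPolynomial (σ ⊕ τ) ℂ) := by
      unfold SS
      rw [pdEr, pdEr]
      simp only [map_add, map_mul, rename_C]
      ring
    rw [e, del_apply, del_apply, hα, de_apply]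
  · have e : SS s (rename Sum.inl F * rename Sum.inr G) m (Sum.inr i) (x + y) =
        SS s (rename Sum.inl F * rename Sum.inr G) m (Sum.inr i) x +
          SS s (rename Sum.inl F * rename Sum.inr G : MvPolynomial (σ ⊕ τ) ℂ) m (Sum.inr i) y := by
      unfold SS
      rw [map_add]
      ring
    rw [e, map_add, map_add, hx, hy]

/-- the product vanishes on the module of the product -/
theorem del_KI {s : ℂ} {F : MvPolynomial σ ℂ} {G : MvPolynomial τ ℂ}
    (A : (ℕ → MvPolynomial σ ℂ →ₗ[ℂ] ℂ) → Prop) (B : (ℕ → MvPolynomial τ ℂ →ₗ[ℂ] ℂ) → Prop)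
    (hAs : ∀ α, A α → Sft F α) (hBs : ∀ β, B β → Sft G β)
    (hAm : ∀ α u, A α → A (mu u α)) (hBm : ∀ β u, B β → B (mu u β))
    (hAd : ∀ α i, A α → A (de s F i α)) (hBd : ∀ β i, B β → B (de s G i β))
    (h1 : ∀ α β, A α → B β → α 0 F * β 0 G = 0)
    (h2 : ∀ α β i, A α → B β → α 0 (pderiv i F) * β 0 G = 0)
    (h3 : ∀ α β i, A α → B β → α 0 F * β 0 (pderiv i G) = 0) (k : ℕ) :
    ∀ q ∈ KI s (rename Sum.inl F * rename Sum.inr G : MvPolynomial (σ ⊕ τ) ℂ) k,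
      ∀ (α : ℕ → MvPolynomial σ ℂ →ₗ[ℂ] ℂ) (β : ℕ → MvPolynomial τ ℂ →ₗ[ℂ] ℂ),
        A α → B β → del α β k q = 0 := by
  refine KI_ind s (fun k q => ∀ (α : ℕ → MvPolynomial σ ℂ →ₗ[ℂ] ℂ)
    (β : ℕ → MvPolynomial τ ℂ →ₗ[ℂ] ℂ), A α → B β →
      del α β k q = 0) ?_ ?_ (fun i => ?_) (fun k a b ha hb => ?_)
    (fun k a q hq => ?_) (fun k q _ hq => ?_) (fun k i q _ hq => ?_) k
  · intro α β _ _
    rw [map_zero]
  · intro α β hα hβ
    rw [del_apply, h1 α β hα hβ]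
  · intro α β hα hβ
    rcases i with i | i
    · rw [pdEl, del_apply, h2 α β i hα hβ]
    · rw [pdEr, del_apply, h3 α β i hα hβ]
  · intro α β hα hβ
    rw [map_add, ha α β hα hβ, hb α β hα hβ, add_zero]
  · intro α β hα hβ
    refine prodE_ind (p := fun a => del α β k (a * q) = 0) (fun u v => ?_)
      (fun x y hx hy => ?_) a
    · rw [del_mu]
      exact hq _ _ (hAm α u hα) (hBm β v hβ)
    · rw [add_mul, map_add, hx, hy, add_zero]
  · intro α β hα hβ
    rw [del_shift (hAs α hα) (hBs β hβ), hq α β hα hβ]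
  · intro α β hα hβ
    rcases i with i | i
    · rw [del_dl (hBs β hβ), hq _ _ (hAd α i hα) hβ]
    · rw [del_dr (hAs α hα), hq _ _ hα (hBd β i hβ)]

theorem mul_ne {F : MvPolynomial σ ℂ} {G : MvPolynomial τ ℂ} (hF : F ≠ 0) (hG : G ≠ 0) :
    (rename Sum.inl F * rename Sum.inr G : MvPolynomial (σ ⊕ τ) ℂ) ≠ 0 :=
  mul_ne_zero
    (by rw [Ne, map_eq_zero_iff _ (rename_injective _ Sum.inl_injective)]; exact hF)
    (by rw [Ne, map_eq_zero_iff _ (rename_injective _ Sum.inr_injective)]; exact hG)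

theorem del_eval {α : ℕ → MvPolynomial σ ℂ →ₗ[ℂ] ℂ}
    {β : ℕ → MvPolynomial τ ℂ →ₗ[ℂ] ℂ} {p : σ → ℂ} {q : τ → ℂ} (hα0 : ∀ u, α 0 u = eval p u)
    (hβ0 : ∀ v, β 0 v = eval q v) (H : MvPolynomial (σ ⊕ τ) ℂ) :
    del α β 0 H = eval (Sum.elim p q) H := by
  refine prodE_ind (p := fun H => del α β 0 H = eval (Sum.elim p q) H)
    (fun u v => ?_) (fun x y hx hy => ?_) H
  · rw [del_apply, map_mul, eval_inl, eval_inr, hα0, hβ0]
  · rw [map_add, map_add, hx, hy]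

theorem del_pow {F : MvPolynomial σ ℂ} {G : MvPolynomial τ ℂ}
    {α : ℕ → MvPolynomial σ ℂ →ₗ[ℂ] ℂ} {β : ℕ → MvPolynomial τ ℂ →ₗ[ℂ] ℂ}
    (hα : Sft F α) (hβ : Sft G β) (k : ℕ) (H : MvPolynomial (σ ⊕ τ) ℂ) :
    del α β k ((rename Sum.inl F * rename Sum.inr G) ^ k * H) = del α β 0 H := by
  induction k with
  | zero => rw [pow_zero, one_mul]
  | succ k ih => rw [pow_succ', mul_assoc, del_shift hα hβ, ih]

/-- **A factor without functional equation.** -/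
theorem not_LEv_mul {F : MvPolynomial σ ℂ} {G : MvPolynomial τ ℂ} (hF : F ≠ 0) (hG : G ≠ 0)
    {p : σ → ℂ} {q : τ → ℂ} {s : ℂ} (h1 : ¬ LEv p F s) :
    ¬ LEv (Sum.elim p q) (rename Sum.inl F * rename Sum.inr G) s := by
  rintro ⟨H, hH, hE⟩
  obtain ⟨α, hα, hα0⟩ := exists_adm hF h1
  obtain ⟨β, hβ, hβ0⟩ := exists_sft hG q
  obtain ⟨k, hk⟩ := KI_of_Ev _ (mul_ne hF hG) hE
  have hF0 : ∀ α : ℕ → MvPolynomial σ ℂ →ₗ[ℂ] ℂ, Adm s F α → α 0 F = 0 :=
    fun α h => h.zero 0 _ (KI_F s F)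
  have h3 := del_KI (s := s) (F := F) (G := G) (Adm s F) (Sft G) (fun α h => h.sft)
    (fun β h => h) (fun α u h => h.mu u) (fun β u h => h.mu u) (fun α i h => h.de i)
    (fun β i h => h.de s i) (fun α β h _ => by rw [hF0 α h, zero_mul])
    (fun α β i h _ => by rw [h.zero 0 _ (KI_D s F i), zero_mul])
    (fun α β i h _ => by rw [hF0 α h, zero_mul]) k _ hk α β hα hβ
  rw [del_pow hα.sft hβ, del_eval hα0 hβ0] at h3
  exact hH h3

/-- the functional is zero on the multiples of the polynomial -/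
structure Van (F : MvPolynomial σ ℂ) (α : ℕ → MvPolynomial σ ℂ →ₗ[ℂ] ℂ) : Prop where
  sft : Sft F α
  zero : ∀ q, α 0 (F * q) = 0

theorem Van.mu {F : MvPolynomial σ ℂ} {α : ℕ → MvPolynomial σ ℂ →ₗ[ℂ] ℂ}
    (h : Van F α) (a : MvPolynomial σ ℂ) : Van F (mu a α) :=
  ⟨h.sft.mu a, fun q => by rw [mu_apply, mul_left_comm, h.zero]⟩

theorem Van.de {F : MvPolynomial σ ℂ} {α : ℕ → MvPolynomial σ ℂ →ₗ[ℂ] ℂ}
    (h : Van F α) (i : σ) : Van F (de (-1) F i α) := by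
  refine ⟨h.sft.de (-1) i, fun q => ?_⟩
  rw [de_eq h.sft, Derivation.leibniz, smul_eq_mul, smul_eq_mul, map_add, h.zero, Nat.cast_zero,
    mul_left_comm, h.sft, zero_add, mul_comm q]
  ring

/-- **A product of two factors at `-1`.** -/
theorem not_LEv_mul_neg_one {F : MvPolynomial σ ℂ} {G : MvPolynomial τ ℂ} (hF : F ≠ 0)
    (hG : G ≠ 0) {p : σ → ℂ} {q : τ → ℂ} (h1 : eval p F = 0) (h2 : eval q G = 0) :
    ¬ LEv (Sum.elim p q) (rename Sum.inl F * rename Sum.inr G) (-1) := by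
  rintro ⟨H, hH, hE⟩
  obtain ⟨α, hα, hα0⟩ := exists_sft hF p
  obtain ⟨β, hβ, hβ0⟩ := exists_sft hG q
  obtain ⟨k, hk⟩ := KI_of_Ev _ (mul_ne hF hG) hE
  have hF0 : ∀ α : ℕ → MvPolynomial σ ℂ →ₗ[ℂ] ℂ, Van F α → α 0 F = 0 := fun α h => by
    have := h.zero 1
    rwa [mul_one] at this
  have hG0 : ∀ α : ℕ → MvPolynomial τ ℂ →ₗ[ℂ] ℂ, Van G α → α 0 G = 0 := fun α h => by
    have := h.zero 1
    rwa [mul_one] at this
  have hα' : Van F α := ⟨hα, fun q => by rw [hα0, map_mul, h1, zero_mul]⟩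
  have hβ' : Van G β := ⟨hβ, fun q => by rw [hβ0, map_mul, h2, zero_mul]⟩
  have h3 := del_KI (s := -1) (F := F) (G := G) (Van F) (Van G) (fun α h => h.sft)
    (fun β h => h.sft) (fun α u h => h.mu u) (fun β u h => h.mu u) (fun α i h => h.de i)
    (fun β i h => h.de i) (fun α β h _ => by rw [hF0 α h, zero_mul])
    (fun α β i _ h => by rw [hG0 β h, mul_zero])
    (fun α β i h _ => by rw [hF0 α h, zero_mul]) k _ hk α β hα' hβ'
  rw [del_pow hα hβ, del_eval hα0 hβ0] at h3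
  exact hH h3

end Two

end Pool.Agent.J4H50.TT
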