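import Pool.Agent.J4H50.NI.K
import Pool.Agent.N138.BF.Ten

set_option autoImplicit false
set_option linter.unusedSectionVars false
set_option linter.unusedVariables false

/-! # Families of functionals which detect the local functional equations at one number -/

namespace Pool.Agent.J4H50.TT

open MvPolynomial Pool.Agent.J4H50.NI
open Pool.Agent.N103 (nab nab_apply D_Gi_pow exists_locDer)
open Pool.Agent.N103.V (Ev)
open Pool.Agent.N138.BF (tensE tensE_apply prodE_ind prodE_ext mulEl mulEr pdEl pdEr)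
open scoped TensorProduct

section One

variable {σ : Type}

/-- `α k (q)` is the value of one functional at `q F ^ (- k)` -/
def Sft (F : MvPolynomial σ ℂ) (α : ℕ → MvPolynomial σ ℂ →ₗ[ℂ] ℂ) : Prop :=
  ∀ k q, α (k + 1) (F * q) = α k q

/-- multiplication -/
noncomputable def mu (a : MvPolynomial σ ℂ) (α : ℕ → MvPolynomial σ ℂ →ₗ[ℂ] ℂ) (k : ℕ) :
    MvPolynomial σ ℂ →ₗ[ℂ] ℂ :=
  (α k).comp (LinearMap.mulLeft ℂ a)

theorem mu_apply (a : MvPolynomial σ ℂ) (α : ℕ → MvPolynomial σ ℂ →ₗ[ℂ] ℂ) (k : ℕ)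
    (q : MvPolynomial σ ℂ) : mu a α k q = α k (a * q) := rfl

/-- the linear map `SS` -/
noncomputable def SSl (s : ℂ) (F : MvPolynomial σ ℂ) (k : ℕ) (i : σ) :
    MvPolynomial σ ℂ →ₗ[ℂ] MvPolynomial σ ℂ :=
  (LinearMap.mulLeft ℂ F).comp (pderiv i).toLinearMap +
    LinearMap.mulLeft ℂ (C (s - (k : ℂ)) * pderiv i F)

theorem SSl_apply (s : ℂ) (F : MvPolynomial σ ℂ) (k : ℕ) (i : σ) (q : MvPolynomial σ ℂ) :
    SSl s F k i q = SS s F k i q := rfl

/-- derivatives -/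
noncomputable def de (s : ℂ) (F : MvPolynomial σ ℂ) (i : σ) (α : ℕ → MvPolynomial σ ℂ →ₗ[ℂ] ℂ)
    (k : ℕ) : MvPolynomial σ ℂ →ₗ[ℂ] ℂ :=
  (α (k + 1)).comp (SSl s F k i)

theorem de_apply (s : ℂ) (F : MvPolynomial σ ℂ) (i : σ) (α : ℕ → MvPolynomial σ ℂ →ₗ[ℂ] ℂ)
    (k : ℕ) (q : MvPolynomial σ ℂ) : de s F i α k q = α (k + 1) (SS s F k i q) := rfl

theorem Sft.mu {F : MvPolynomial σ ℂ} {α : ℕ → MvPolynomial σ ℂ →ₗ[ℂ] ℂ} (h : Sft F α)
    (a : MvPolynomial σ ℂ) : Sft F (mu a α) := by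
  intro k q
  rw [mu_apply, mu_apply, mul_left_comm, h]

theorem Sft.de {F : MvPolynomial σ ℂ} {α : ℕ → MvPolynomial σ ℂ →ₗ[ℂ] ℂ} (h : Sft F α) (s : ℂ)
    (i : σ) : Sft F (de s F i α) := by
  intro k q
  rw [de_apply, de_apply, ← h (k + 1) (SS s F k i q)]
  congr 1
  unfold SS
  rw [Derivation.leibniz, smul_eq_mul, smul_eq_mul]
  have e : (C (s - ((k + 1 : ℕ) : ℂ)) : MvPolynomial σ ℂ) = C (s - (k : ℂ)) - 1 := by
    rw [← C_1, ← C_sub]
    congr 1
    push_cast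
    ring
  rw [e]
  ring

theorem de_eq {F : MvPolynomial σ ℂ} {α : ℕ → MvPolynomial σ ℂ →ₗ[ℂ] ℂ} (h : Sft F α) (s : ℂ)
    (i : σ) (k : ℕ) (q : MvPolynomial σ ℂ) :
    de s F i α k q = α k (pderiv i q) + (s - k) * α (k + 1) (pderiv i F * q) := by
  rw [de_apply]
  unfold SS
  rw [map_add, h, mul_assoc, ← smul_eq_C_mul, map_smul, smul_eq_mul]

/-- the functional vanishes on the module generated by `F ^ (s + 1)` and the `(∂_i F) F ^ s` -/
structure Adm (s : ℂ) (F : MvPolynomial σ ℂ) (α : ℕ → MvPolynomial σ ℂ →ₗ[ℂ] ℂ) : Prop where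
  sft : Sft F α
  zero : ∀ k, ∀ q ∈ KI s F k, α k q = 0

theorem Adm.mu {s : ℂ} {F : MvPolynomial σ ℂ} {α : ℕ → MvPolynomial σ ℂ →ₗ[ℂ] ℂ}
    (h : Adm s F α) (a : MvPolynomial σ ℂ) : Adm s F (mu a α) :=
  ⟨h.sft.mu a, fun k q hq => h.zero k _ (Ideal.mul_mem_left _ _ hq)⟩

theorem Adm.de {s : ℂ} {F : MvPolynomial σ ℂ} {α : ℕ → MvPolynomial σ ℂ →ₗ[ℂ] ℂ}
    (h : Adm s F α) (i : σ) : Adm s F (de s F i α) :=
  ⟨h.sft.de s i, fun k q hq => h.zero (k + 1) _ (KI_SS s i hq)⟩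

/-- extension of the value at a point -/
theorem exists_fam (F : MvPolynomial σ ℂ) (hF : F ≠ 0) (p : σ → ℂ)
    (U : Submodule ℂ (Localization.Away F))
    (hU : ∀ a, algebraMap (MvPolynomial σ ℂ) (Localization.Away F) a ∈ U → eval p a = 0) :
    ∃ α : ℕ → MvPolynomial σ ℂ →ₗ[ℂ] ℂ, Sft F α ∧ (∀ a, α 0 a = eval p a) ∧
      ∀ (k : ℕ) (q : MvPolynomial σ ℂ) (x : Localization.Away F), x ∈ U →
        x * algebraMap _ (Localization.Away F) (F ^ k) = algebraMap _ (Localization.Away F) q →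
        α k q = 0 := by
  classical
  set L := Localization.Away F with hL
  set j := algebraMap (MvPolynomial σ ℂ) L with hj
  set φ : MvPolynomial σ ℂ →ₐ[ℂ] L := IsScalarTower.toAlgHom ℂ (MvPolynomial σ ℂ) L with hφ
  have hφa : ∀ x, φ x = j x := fun x => rfl
  obtain ⟨Gi, hGi⟩ := (IsLocalization.Away.algebraMap_isUnit (S := L) F).exists_right_inv
  have hGi' : j F * Gi = 1 := hGi
  set Θ : MvPolynomial σ ℂ →ₗ[ℂ] (L ⧸ U) := U.mkQ.comp φ.toLinearMap with hΘ
  set ev : Module.Dual ℂ (MvPolynomial σ ℂ) :=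
    (MvPolynomial.aeval (R := ℂ) p).toLinearMap with hev
  have heva : ∀ a, ev a = eval p a := by
    intro a
    show MvPolynomial.aeval p a = _
    rw [MvPolynomial.aeval_eq_eval]
  have h1 : ev ∈ LinearMap.range Θ.dualMap := by
    rw [LinearMap.range_dualMap_eq_dualAnnihilator_ker, Submodule.mem_dualAnnihilator]
    intro a ha
    rw [heva]
    refine hU a ?_
    have h2 : Θ a = 0 := ha
    rw [hΘ, LinearMap.comp_apply, Submodule.mkQ_apply, Submodule.Quotient.mk_eq_zero] at h2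
    exact h2
  obtain ⟨g, hg⟩ := h1
  refine ⟨fun k => g.comp (U.mkQ.comp ((LinearMap.mulRight ℂ (Gi ^ k)).comp φ.toLinearMap)),
    ?_, ?_, ?_⟩
  · intro k q
    show g (U.mkQ (φ (F * q) * Gi ^ (k + 1))) = g (U.mkQ (φ q * Gi ^ k))
    congr 2
    rw [map_mul, pow_succ, hφa, hφa]
    linear_combination (j q * Gi ^ k) * hGi'
  · intro a
    show g (U.mkQ (φ a * Gi ^ 0)) = _
    rw [pow_zero, mul_one, ← heva, ← hg]
    rfl
  · intro k q x hx hxq
    show g (U.mkQ (φ q * Gi ^ k)) = 0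
    have h2 : φ q * Gi ^ k = x := by
      have h3 : (j F) ^ k * Gi ^ k = 1 := by rw [← mul_pow, hGi', one_pow]
      rw [hφa, ← hxq, map_pow]
      linear_combination x * h3
    rw [h2]
    have h3 : U.mkQ x = 0 := by
      rw [Submodule.mkQ_apply, Submodule.Quotient.mk_eq_zero]
      exact hx
    rw [h3, map_zero]

/-- **The functionals which detect the missing functional equations.** -/
theorem exists_adm {s : ℂ} {F : MvPolynomial σ ℂ} (hF : F ≠ 0) {p : σ → ℂ} (h : ¬ LEv p F s) :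
    ∃ α : ℕ → MvPolynomial σ ℂ →ₗ[ℂ] ℂ, Adm s F α ∧ ∀ a, α 0 a = eval p a := by
  classical
  set L := Localization.Away F with hL
  set j := algebraMap (MvPolynomial σ ℂ) L with hj
  have hM : Submonoid.powers F ≤ nonZeroDivisors (MvPolynomial σ ℂ) :=
    powers_le_nonZeroDivisors_of_noZeroDivisors hF
  have hinj : Function.Injective j := IsLocalization.injective _ hM
  have hFj : IsUnit (j F) := IsLocalization.Away.algebraMap_isUnit (S := L) F
  let U : Submodule ℂ L :=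
    { carrier := {x | ∃ k, ∃ q ∈ KI s F k, x * j (F ^ k) = j q}
      add_mem' := by
        rintro x y ⟨k, q, hq, h1⟩ ⟨k', q', hq', h1'⟩
        refine ⟨k + k', F ^ k' * q + F ^ k * q', Ideal.add_mem _ (KI_pow s hq k') ?_, ?_⟩
        · have := KI_pow s hq' k
          rwa [add_comm k' k] at this
        · rw [pow_add, map_mul, map_add, map_mul, map_mul, ← h1, ← h1']
          ring
      zero_mem' := ⟨0, 0, Ideal.zero_mem _, by rw [zero_mul, map_zero]⟩
      smul_mem' := by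
        rintro c x ⟨k, q, hq, h1⟩
        refine ⟨k, C c * q, Ideal.mul_mem_left _ _ hq, ?_⟩
        rw [smul_mul_assoc, h1, map_mul, ← smul_eq_mul, Algebra.smul_def,
          IsScalarTower.algebraMap_apply ℂ (MvPolynomial σ ℂ) L]
        rfl }
  obtain ⟨α, h1, h2, h3⟩ := exists_fam F hF p U (by
    rintro a ⟨k, q, hq, hk⟩
    by_contra h0
    refine h ⟨a, h0, Ev_of_KI s (k := k) ?_⟩
    have h4 : F ^ k * a = q := by
      apply hinj
      rw [← hk, map_mul, mul_comm]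
    rw [h4]
    exact hq)
  refine ⟨α, ⟨h1, fun k q hq => ?_⟩, h2⟩
  obtain ⟨Gi, hGi⟩ := hFj.exists_right_inv
  have h5 : (j F) ^ k * Gi ^ k = 1 := by rw [← mul_pow, hGi, one_pow]
  refine h3 k q (j q * Gi ^ k) ⟨k, q, hq, ?_⟩ ?_
  · rw [map_pow]
    linear_combination (j q) * h5
  · rw [map_pow]
    linear_combination (j q) * h5

/-- the value at a point -/
theorem exists_sft {F : MvPolynomial σ ℂ} (hF : F ≠ 0) (p : σ → ℂ) :
    ∃ α : ℕ → MvPolynomial σ ℂ →ₗ[ℂ] ℂ, Sft F α ∧ ∀ a, α 0 a = eval p a := by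
  have hM : Submonoid.powers F ≤ nonZeroDivisors (MvPolynomial σ ℂ) :=
    powers_le_nonZeroDivisors_of_noZeroDivisors hF
  have hinj : Function.Injective (algebraMap (MvPolynomial σ ℂ) (Localization.Away F)) :=
    IsLocalization.injective _ hM
  obtain ⟨α, h1, h2, -⟩ := exists_fam F hF p ⊥ (by
    intro a ha
    rw [Submodule.mem_bot] at ha
    have h3 : a = 0 := hinj (by rw [ha, map_zero])
    rw [h3, map_zero])
  exact ⟨α, h1, h2⟩

/-- the value at a zero -/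
theorem exists_van {F : MvPolynomial σ ℂ} (hF : F ≠ 0) (p : σ → ℂ) (h0 : eval p F = 0) :
    ∃ α : ℕ → MvPolynomial σ ℂ →ₗ[ℂ] ℂ, Sft F α ∧ (∀ a, α 0 a = eval p a) := exists_sft hF p

end One

end Pool.Agent.J4H50.TT
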