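import Pool.Agent.J4H50.TT.Defs
import Pool.Agent.J4H50.TT.TProd
import Pool.Agent.J4H50.TT.Swh
import Pool.Agent.N103.V.Final
import Pool.Agent.Y229.LP1

set_option autoImplicit false
set_option linter.unusedSectionVars false
set_option linter.unusedVariables false
set_option linter.unusedSimpArgs false

/-! # The properties of the zeta functions -/

namespace Pool.Agent.J4H50.TT

open Pool.Agent.W574.SM Pool.Agent.N103 Pool.Agent.N103.V Pool.Agent.Y229
open Pool.Agent.J4H50.NI (LEv CEq LEv_jet KI_F KI_of_Ev Ev_of_KI)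
open Pool.Agent.J4H50.IG (Ord)

/-- the properties in terms of `LEv` -/
theorem good_of {σ : Type} {F : MvPolynomial σ ℂ} {p : σ → ℂ} {Z : ℕ → RatFunc ℂ} (hne : F ≠ 0)
    (h0 : MvPolynomial.eval p F = 0) (hre : ∀ e, 1 ≤ e → ∀ s : ℂ, 0 ≤ s.re → Z e ∈ Reg s)
    (hone : ∃ r ∈ Reg 0, Z 1 = 1 + RatFunc.X * r)
    (hhigh : ∀ e, 2 ≤ e → ∀ s : ℂ, Z e ∉ Reg s → ¬ LEv p F s)
    (hlow : ∀ s : ℂ, (RatFunc.X + 1) * Z 1 ∉ Reg s → ¬ LEv p F s) : Good F p Z where
  ne := hne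
  zero := h0
  re := hre
  one := hone
  high := fun e he H s hH hE => by
    by_contra h
    exact hhigh e he s h ⟨H, hH, hE⟩
  low := fun H s hH hE => by
    by_contra h
    exact hlow s h ⟨H, hH, hE⟩

section WWs

variable {σ : Type} {F : MvPolynomial σ ℂ} {p : σ → ℂ} {Z : ℕ → RatFunc ℂ}

theorem _root_.Pool.Agent.N103.V.Good.nhigh (h : Good F p Z) {e : ℕ} (he : 2 ≤ e) {s : ℂ} (hs : Z e ∉ Reg s) :
    ¬ LEv p F s := fun ⟨H, hH, hE⟩ => hs (h.high e he H s hH hE)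

theorem _root_.Pool.Agent.N103.V.Good.nlow (h : Good F p Z) {s : ℂ} (hs : (RatFunc.X + 1) * Z 1 ∉ Reg s) :
    ¬ LEv p F s := fun ⟨H, hH, hE⟩ => hs (h.low H s hH hE)

theorem WW_one (Z : ℕ → RatFunc ℂ) : WW Z 1 = ((RatFunc.X + 1) * Z 1 - 1) / RatFunc.X := by
  rw [WW, if_pos rfl]

theorem WW_high (Z : ℕ → RatFunc ℂ) {e : ℕ} (he : 2 ≤ e) : WW Z e = Z e := by
  rw [WW, if_neg (by omega)]

/-- the poles of the functions `W` -/
theorem _root_.Pool.Agent.N103.V.Good.WW_re (h : Good F p Z) {c : ℕ} (hc : 1 ≤ c) {s : ℂ} (hs : WW Z c ∉ Reg s) :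
    s.re < 0 := by
  by_contra hre
  push Not at hre
  apply hs
  by_cases h1 : c = 1
  · subst h1
    rw [WW_one]
    by_cases h0 : s = 0
    · subst h0
      obtain ⟨r, hr, e⟩ := h.one
      have : ((RatFunc.X + 1) * Z 1 - 1) / RatFunc.X = 1 + (RatFunc.X + 1) * r := by
        rw [e, div_eq_iff RatFunc.X_ne_zero]
        ring
      rw [this]
      exact (Reg 0).add_mem (Reg 0).one_mem ((Reg 0).mul_mem (X1_mem 0) hr)
    · rw [div_eq_mul_inv]
      exact (Reg s).mul_mem ((Reg s).sub_mem ((Reg s).mul_mem (X1_mem s) (h.re 1 le_rfl s hre))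
        (Reg s).one_mem) (X_inv_reg s h0)
  · rw [WW_high Z (by omega)]
    exact h.re c hc s hre

/-- no functional equation at the poles of the functions `W` -/
theorem _root_.Pool.Agent.N103.V.Good.WW_pole (h : Good F p Z) {c : ℕ} (hc : 1 ≤ c) {s : ℂ} (hs : WW Z c ∉ Reg s) :
    ¬ LEv p F s := by
  have hre := h.WW_re hc hs
  by_cases h1 : c = 1
  · subst h1
    refine h.nlow fun h2 => hs ?_
    rw [WW_one, div_eq_mul_inv]
    refine (Reg s).mul_mem ((Reg s).sub_mem h2 (Reg s).one_mem) (X_inv_reg s ?_)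
    rintro rfl
    rw [Complex.zero_re] at hre
    exact lt_irrefl _ hre
  · rw [WW_high Z (by omega)] at hs
    exact h.nhigh (by omega) hs

end WWs

/-- the poles of a product of exponential polynomials -/
theorem lap2_mem {v w : ℂ × ℕ →₀ ℂ} {s : ℂ}
    (h : ∀ p ∈ v.support, ∀ q ∈ w.support, s ≠ -p.1 + -q.1) : lap2 v w ∈ Reg s := by
  refine Subring.sum_mem _ fun p hp => Subring.sum_mem _ fun q hq => ?_
  refine (Reg s).mul_mem (C_reg s _) (lterm_reg s _ _ fun h1 => h p hp q hq ?_)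
  rw [h1]
  ring

theorem lcm_pos' (a b : ℚ) : 1 ≤ Nat.lcm a.den b.den :=
  Nat.lcm_pos a.den_pos b.den_pos

theorem tsW_mem {M : ℕ} {w w' : ℕ → (ℂ × ℕ →₀ ℂ)} {e : ℕ} {s : ℂ}
    (h : ∀ c c', 1 ≤ c → 1 ≤ c' → ∀ p ∈ (w c).support, ∀ q ∈ (w' c').support, s ≠ -p.1 + -q.1) :
    tsW M w w' e ∈ Reg s := by
  rw [tsW]
  refine (Reg s).neg_mem (Subring.sum_mem _ fun a _ => Subring.sum_mem _ fun b _ => ?_)
  exact lap2_mem (h _ _ (lcm_pos' _ _) (lcm_pos' _ _))

section Sum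

variable {σ τ : Type} {F : MvPolynomial σ ℂ} {G : MvPolynomial τ ℂ} {p : σ → ℂ} {q : τ → ℂ}
  {Z Z' : ℕ → RatFunc ℂ} {M : ℕ} {w w' : ℕ → (ℂ × ℕ →₀ ℂ)}

theorem tsW_pole (hF : Good F p Z) (hG : Good G q Z') (hw : ∀ c, 1 ≤ c → WW Z c = lap (w c))
    (hw' : ∀ c, 1 ≤ c → WW Z' c = lap (w' c)) {e : ℕ} {s : ℂ} (hs : tsW M w w' e ∉ Reg s) :
    s.re < 0 ∧
      ¬ LEv (Sum.elim p q) (MvPolynomial.rename Sum.inl F + MvPolynomial.rename Sum.inr G) s := by
  have h1 : ∃ c c', 1 ≤ c ∧ 1 ≤ c' ∧ ∃ p ∈ (w c).support, ∃ q ∈ (w' c').support,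
      s = -p.1 + -q.1 := by
    by_contra hne
    push Not at hne
    exact hs (tsW_mem fun c c' hc hc' p hp q hq => hne c c' hc hc' p hp q hq)
  obtain ⟨c, c', hc, hc', x, hx, y, hy, rfl⟩ := h1
  have hx1 : WW Z c ∉ Reg (-x.1) := by
    rw [hw c hc]
    exact lap_pole _ _ hx
  have hy1 : WW Z' c' ∉ Reg (-y.1) := by
    rw [hw' c' hc']
    exact lap_pole _ _ hy
  have hre : (-x.1 + -y.1).re < 0 := by
    rw [Complex.add_re]
    have := hF.WW_re hc hx1
    have := hG.WW_re hc' hy1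
    linarith
  refine ⟨hre, not_LEv_sum hF.ne hG.ne (hF.WW_pole hc hx1) (hG.WW_pole hc' hy1) fun m hm => ?_⟩
  rw [hm, Complex.natCast_re] at hre
  exact absurd hre (not_lt.2 (Nat.cast_nonneg m))

theorem X1_tsZ (M : ℕ) (w w' : ℕ → (ℂ × ℕ →₀ ℂ)) :
    (RatFunc.X + 1) * tsZ M w w' 1 = 1 + RatFunc.X * tsW M w w' 1 := by
  rw [tsZ, if_pos rfl, mul_div_cancel₀ _ X1_ne]

theorem good_sum (hF : Good F p Z) (hG : Good G q Z') (hw : ∀ c, 1 ≤ c → WW Z c = lap (w c))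
    (hw' : ∀ c, 1 ≤ c → WW Z' c = lap (w' c)) :
    Good (MvPolynomial.rename Sum.inl F + MvPolynomial.rename Sum.inr G) (Sum.elim p q)
      (tsZ M w w') := by
  have hreg : ∀ e, ∀ s : ℂ, 0 ≤ s.re → tsW M w w' e ∈ Reg s := by
    intro e s hs
    by_contra h
    exact absurd (tsW_pole hF hG hw hw' h).1 (not_lt.2 hs)
  refine good_of (sum_ne hF.ne hF.zero hG.zero) ?_ ?_ ?_ ?_ ?_
  · rw [map_add, eval_inl, eval_inr, hF.zero, hG.zero, add_zero]
  · intro e he s hs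
    by_cases h1 : e = 1
    · subst h1
      refine of_X1 (re_ne hs) ?_
      rw [X1_tsZ]
      exact (Reg s).add_mem (Reg s).one_mem ((Reg s).mul_mem (X_mem s) (hreg 1 s hs))
    · rw [tsZ, if_neg h1]
      exact hreg e s hs
  · refine ⟨(tsW M w w' 1 - 1) * (1 / (RatFunc.X + 1)), (Reg 0).mul_mem ((Reg 0).sub_mem
      (hreg 1 0 (le_of_eq Complex.zero_re.symm)) (Reg 0).one_mem) (X1_inv (by norm_num)), ?_⟩
    rw [tsZ, if_pos rfl]
    have := X1_ne
    field_simp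
    ring
  · intro e he s hs
    rw [tsZ, if_neg (by omega)] at hs
    exact (tsW_pole hF hG hw hw' hs).2
  · intro s hs
    rw [X1_tsZ] at hs
    refine (tsW_pole hF hG hw hw' (e := 1) (M := M) (s := s) fun h => hs ?_).2
    exact (Reg s).add_mem (Reg s).one_mem ((Reg s).mul_mem (X_mem s) h)

theorem good_mul (hF : Good F p Z) (hG : Good G q Z') :
    Good (MvPolynomial.rename Sum.inl F * MvPolynomial.rename Sum.inr G) (Sum.elim p q)
      (fun e => Z e * Z' e) := by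
  have hsymm : ∀ s : ℂ, ¬ LEv q G s → ¬ LEv (Sum.elim p q)
      (MvPolynomial.rename Sum.inl F * MvPolynomial.rename Sum.inr G) s := by
    rintro s h ⟨H, hH, hE⟩
    refine not_LEv_mul (p := q) (q := p) hG.ne hF.ne h ?_
    set ε : τ ⊕ σ ≃ σ ⊕ τ := Equiv.sumComm τ σ
    have e1 : MvPolynomial.rename ε (MvPolynomial.rename Sum.inl G * MvPolynomial.rename Sum.inr F :
        MvPolynomial (τ ⊕ σ) ℂ) =
        MvPolynomial.rename Sum.inl F * MvPolynomial.rename Sum.inr G := by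
      rw [map_mul, MvPolynomial.rename_rename, MvPolynomial.rename_rename, mul_comm]
      rfl
    rw [← e1] at hE
    refine ⟨_, ?_, ev_rename ε hE⟩
    rw [MvPolynomial.eval_rename]
    have e2 : Sum.elim q p ∘ ε.symm = Sum.elim p q := by
      funext i
      rcases i with i | i <;> rfl
    rw [e2]
    exact hH
  refine good_of (mul_ne hF.ne hG.ne) ?_ ?_ ?_ ?_ ?_
  · rw [map_mul, eval_inl, hF.zero, zero_mul]
  · exact fun e he s hs => (Reg s).mul_mem (hF.re e he s hs) (hG.re e he s hs)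
  · obtain ⟨r, hr, e⟩ := hF.one
    obtain ⟨r', hr', e'⟩ := hG.one
    refine ⟨r + r' + RatFunc.X * r * r', (Reg 0).add_mem ((Reg 0).add_mem hr hr')
      ((Reg 0).mul_mem ((Reg 0).mul_mem (X_mem 0) hr) hr'), ?_⟩
    rw [e, e']
    ring
  · intro e he s hs
    by_cases h1 : Z e ∈ Reg s
    · have h2 : Z' e ∉ Reg s := fun h2 => hs ((Reg s).mul_mem h1 h2)
      exact hsymm s (hG.nhigh he h2)
    · exact not_LEv_mul hF.ne hG.ne (hF.nhigh he h1)
  · intro s hs
    by_cases h0 : s = -1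
    · subst h0
      exact not_LEv_mul_neg_one hF.ne hG.ne hF.zero hG.zero
    · by_cases h1 : Z 1 ∈ Reg s
      · have h2 : (RatFunc.X + 1) * Z' 1 ∉ Reg s := fun h2 => hs ((Reg s).mul_mem (X1_mem s)
          ((Reg s).mul_mem h1 (of_X1 h0 h2)))
        exact hsymm s (hG.nlow h2)
      · have h2 : (RatFunc.X + 1) * Z 1 ∉ Reg s := fun h2 => h1 (of_X1 h0 h2)
        exact not_LEv_mul hF.ne hG.ne (hF.nlow h2)

theorem good_extra (hF : Good F p Z) (q : τ → ℂ) :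
    Good (MvPolynomial.rename Sum.inl F) (Sum.elim p q) Z := by
  have h1 : ∀ s : ℂ, ¬ LEv p F s →
      ¬ LEv (Sum.elim p q) (MvPolynomial.rename Sum.inl F : MvPolynomial (σ ⊕ τ) ℂ) s := by
    intro s h
    have h2 := not_LEv_mul (G := (1 : MvPolynomial τ ℂ)) (q := q) hF.ne one_ne_zero h
    rwa [map_one, mul_one] at h2
  refine good_of ?_ ?_ hF.re hF.one (fun e he s hs => h1 s (hF.nhigh he hs))
    (fun s hs => h1 s (hF.nlow hs))
  · rw [Ne, map_eq_zero_iff _ (MvPolynomial.rename_injective _ Sum.inl_injective)]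
    exact hF.ne
  · rw [eval_inl, hF.zero]

theorem good_ren (hF : Good F p Z) (ε : σ ≃ τ) :
    Good (MvPolynomial.rename ε F) (fun i => p (ε.symm i)) Z := by
  have h1 : ∀ s : ℂ, ¬ LEv p F s →
      ¬ LEv (fun i => p (ε.symm i)) (MvPolynomial.rename ε F) s := by
    rintro s h ⟨H, hH, hE⟩
    refine h ⟨_, ?_, ev_rename ε hE⟩
    rw [MvPolynomial.eval_rename]
    have e2 : p ∘ ε.symm = fun i => p (ε.symm i) := rfl
    rw [e2]
    exact hH
  refine good_of ?_ ?_ hF.re hF.one (fun e he s hs => h1 s (hF.nhigh he hs))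
    (fun s hs => h1 s (hF.nlow hs))
  · rw [Ne, map_eq_zero_iff _ (MvPolynomial.rename_injective _ ε.injective)]
    exact hF.ne
  · rw [MvPolynomial.eval_rename]
    have e2 : (fun i => p (ε.symm i)) ∘ ε = p := by
      funext i
      simp
    rw [e2, hF.zero]

end Sum

end Pool.Agent.J4H50.TT
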