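import Pool.Agent.N103.V.SZDefs
import Pool.Agent.Y229.LPDefs
import Pool.Agent.J4H50.NI.K
import Pool.Agent.J4H50.IG.Sw1

set_option autoImplicit false

/-! # Topological zeta functions of Thom-Sebastiani sums

Let `F(x)` and `G(y)` vanish at the points `p` and `q`, let `Z_e` and `Z'_e`, `e ≥ 1`, be the (twisted)
local topological zeta functions, and let `W_1(s) = ((s + 1) Z_1(s) - 1) / s`, `W_e = Z_e` for `e ≥ 2`,
and the same for `W'_e`. Write `W_e(s) = ∫_0^∞ w_e(t) exp(- s t) dt` with exponential polynomials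
`w_e`. The functions `W''_e` of `F(x) + G(y)` are given by the Thom-Sebastiani formula
(Denef, Loeser; Looijenga)

`W''_e(s) = - ∑_g ∫_0^∞ w_{ord g}(t) w'_{ord(γ - g)}(t) exp(- s t) dt`,

where `g` runs over the elements of finite order of `(ℚ/ℤ)²`, `ord` is the order, and `γ = (1/e, 0)`.
Here `g = (a, b)` stands for a ramified character `ω` of order `ord a` and an unramified character `ζ` of
order `ord b`: let `χ` be a character of order `e` of the residue field of a `p`-adic field with `q`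
elements, and let `A_t(ω)` be the integral of `ω(ac F)` over `ord F = t`. For `e ≥ 2`, the integral of
`χ(ac (F + G))` over `ord (F + G) = t` is `A_t(χ) P(ord G > t) + P(ord F > t) B_t(χ)` plus
`(q - 1)⁻² ∑_ω A_t(ω) B_t(χ/ω) (q - 1) J(ω, χ/ω)` with Jacobi sums `J`; if `q → 1`, then `A_t(ω) / (q - 1)`
becomes the sum over `ζ` of `ζ^(-t)` times the function with the Laplace transform `Z_{lcm(ord ω, ord ζ)}`,
and `J` becomes `-1`, the Euler characteristic of `ℙ¹` without three points. The case `e = 1` is similar;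
the arcs with `ord F = ord G < ord (F + G)` lead to the factor `s / (s + 1)`. For `G = z ^ d` this is the
formula of Artal Bartolo, Cassou-Noguès, Luengo and Melle (`suspZ`). -/

namespace Pool.Agent.J4H50.TT

open MvPolynomial Pool.Agent.N103 Pool.Agent.N103.V Pool.Agent.Y229
open Pool.Agent.J4H50.NI (CEq)
open Pool.Agent.J4H50.IG (Ord)

/-- `W_1 = ((s + 1) Z_1 - 1) / s` and `W_e = Z_e` for `e ≥ 2` -/
noncomputable def WW (Z : ℕ → RatFunc ℂ) (e : ℕ) : RatFunc ℂ :=
  if e = 1 then ((RatFunc.X + 1) * Z 1 - 1) / RatFunc.X else Z e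

/-- The function `W_e` of `F(x) + G(y)`: the sum over `g = (a / M, b / M)`, `0 ≤ a, b < M`; the order of
`(c, c')` in `(ℚ/ℤ)²` is the least common multiple of the denominators of `c` and `c'`, and
`lap2 v w` is the Laplace transform of the product of the exponential polynomials `v` and `w`. -/
noncomputable def tsW (M : ℕ) (w w' : ℕ → (ℂ × ℕ →₀ ℂ)) (e : ℕ) : RatFunc ℂ :=
  -∑ a ∈ Finset.range M, ∑ b ∈ Finset.range M,
    lap2 (w (Nat.lcm ((a : ℚ) / M).den ((b : ℚ) / M).den))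
      (w' (Nat.lcm ((1 : ℚ) / e - (a : ℚ) / M).den ((b : ℚ) / M).den))

/-- The zeta functions of `F(x) + G(y)`: `Z_1 = (1 + s W_1) / (s + 1)` and `Z_e = W_e` for `e ≥ 2`. -/
noncomputable def tsZ (M : ℕ) (w w' : ℕ → (ℂ × ℕ →₀ ℂ)) (e : ℕ) : RatFunc ℂ :=
  if e = 1 then (1 + RatFunc.X * tsW M w w' 1) / (RatFunc.X + 1) else tsW M w w' e

section Swh

variable {σ : Type} [Fintype σ]

/-- The Euler characteristic of the fixed points of the `k`-th power of the monodromy on the Milnor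
fibre of a polynomial with an isolated critical point, which is weighted homogeneous of degree `D` for
the weights `w` (Milnor, Orlik): `1 - ∏ (1 - D / w_i)`, over the `i` such that `D` divides `k w_i`. -/
noncomputable def LN (w : σ → ℕ) (D k : ℕ) : ℚ :=
  1 - ∏ i ∈ Finset.univ.filter (fun i => D ∣ k * w i), (1 - (D : ℚ) / w i)

/-- The number `∑_r r χ(S_r)`, over the `r` with `e ∣ D / r`, where `S_r` is the set of the points in the
complement of `G = 0` in the weighted projective space with isotropy group of order `r`; one has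
`∑_{δ ∣ k} δ χ(S_(D/δ)) = LN w D k`. -/
noncomputable def AE (w : σ → ℕ) (D e : ℕ) : ℚ :=
  D * ∑ δ ∈ D.divisors.filter (fun δ => e ∣ δ), (1 / (δ : ℚ) ^ 2) *
    ∑ k ∈ δ.divisors, (ArithmeticFunction.moebius (δ / k) : ℚ) * LN w D k

/-- The zeta functions of the polynomials `G₀ + ⋯`, where `G₀` has an isolated critical point and is
weighted homogeneous of degree `D` for the weights `w`, and where the other terms have greater weight:
with `|w| = ∑ w_i`, `Z_e = A_e / (|w| + D s)` for `e ≥ 2`, and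
`Z_1 = (A_1 + (|w| - A_1) / (s + 1)) / (|w| + D s)` (one weighted blowing up). -/
noncomputable def swZ (w : σ → ℕ) (D e : ℕ) : RatFunc ℂ :=
  (if e = 1 then RatFunc.C ((AE w D 1 : ℚ) : ℂ) +
      (((∑ i, w i : ℕ) : RatFunc ℂ) - RatFunc.C ((AE w D 1 : ℚ) : ℂ)) / (RatFunc.X + 1)
    else RatFunc.C ((AE w D e : ℚ) : ℂ)) /
    (((∑ i, w i : ℕ) : RatFunc ℂ) + (D : RatFunc ℂ) * RatFunc.X)

end Swh

/-- `TSZ σ F p Z`: the polynomial `F` (in the variables `σ`) vanishes at the point `p`, and the `Z e`,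
`e ≥ 1`, are the twisted local topological zeta functions of `F` at `p`. The rules are

* `smooth`: `F = 0` is smooth at `p`: `Z_1 = 1 / (s + 1)` and `Z_e = 0` for `e > 1`;
* `lin`: `F = h(x) (f₀(x) + ∑ y_j f_j(x)) ^ a`, `x = (x₁, x₂)`, and the zeta functions are computed by
  blowing up points of the plane (`PointZeta`); in particular, `F` may be any polynomial in two
  variables;
* `swh`: `F = G₀ + G₁` at the origin, where `G₀` is weighted homogeneous and has an isolated critical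
  point, and all the terms of `G₁` have greater weight;
* `sum`: the Thom-Sebastiani sum `F(x) + G(y)`; `M ≥ 1` is a number such that `Z_c = 0` if `c ≥ 2` does
  not divide `M`;
* `mul`: the product `F(x) G(y)`: `Z_e(F) Z_e(G)`;
* `pow`: `F ^ k`, `k ≥ 1`: `e ∣ k N` if and only if `e / gcd(e, k) ∣ N`;
* `extra`: additional variables;
* `ren`: other names of the variables;
* `jet`: `F` may be replaced by `F'` at the origin, if for every `n` there are a unit `v` and coordinates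
  `ψ` at the origin with `v F'(ψ) ≡ F` modulo terms of degree `≥ n` (`CEq`). -/
inductive TSZ : (σ : Type) → MvPolynomial σ ℂ → (σ → ℂ) → (ℕ → RatFunc ℂ) → Prop
  | smooth {σ : Type} (F : MvPolynomial σ ℂ) (p : σ → ℂ) (h0 : eval p F = 0) (i : σ)
      (h1 : eval p (pderiv i F) ≠ 0) :
      TSZ σ F p (fun e => if e = 1 then 1 / (RatFunc.X + 1) else 0)
  | lin {κ : Type} [Fintype κ] [DecidableEq κ] (h : MvPolynomial (Fin 2) ℂ)
      (f : Option κ → MvPolynomial (Fin 2) ℂ) (a : ℕ) (ha : 1 ≤ a) (hF : FF h f a ≠ 0)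
      (P : Fin 2 → ℂ) (c : κ → ℂ) (h0 : eval (Sum.elim P c) (FF h f a) = 0) (Z : ℕ → RatFunc ℂ)
      (hZ : ∀ e, 1 ≤ e → PointZeta (tfac e) 1 h f a P c (Z e)) :
      TSZ (Fin 2 ⊕ κ) (FF h f a) (Sum.elim P c) Z
  | swh {σ : Type} [Fintype σ] [Nonempty σ] (G0 G1 : MvPolynomial σ ℂ) (w : σ → ℕ) (D : ℕ)
      (hw : ∀ i, 0 < w i) (hD : 0 < D) (hG0 : G0.IsWeightedHomogeneous w D)
      (hG1 : Ord w (D + 1) G1) (h0 : ∀ i, constantCoeff (pderiv i G0) = 0)
      (h1 : ∀ i, constantCoeff (pderiv i G1) = 0)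
      (hz : ∀ z : σ → ℂ, (∀ i, eval z (pderiv i G0) = 0) → z = 0) :
      TSZ σ (G0 + G1) 0 (swZ w D)
  | sum {σ τ : Type} (F : MvPolynomial σ ℂ) (G : MvPolynomial τ ℂ) (p : σ → ℂ) (q : τ → ℂ)
      (Z Z' : ℕ → RatFunc ℂ) (hF : TSZ σ F p Z) (hG : TSZ τ G q Z') (M : ℕ) (hM : 1 ≤ M)
      (hMZ : ∀ c, 2 ≤ c → ¬ c ∣ M → Z c = 0) (w w' : ℕ → (ℂ × ℕ →₀ ℂ))
      (hw : ∀ c, 1 ≤ c → WW Z c = lap (w c)) (hw' : ∀ c, 1 ≤ c → WW Z' c = lap (w' c)) :
      TSZ (σ ⊕ τ) (rename Sum.inl F + rename Sum.inr G) (Sum.elim p q) (tsZ M w w')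
  | mul {σ τ : Type} (F : MvPolynomial σ ℂ) (G : MvPolynomial τ ℂ) (p : σ → ℂ) (q : τ → ℂ)
      (Z Z' : ℕ → RatFunc ℂ) (hF : TSZ σ F p Z) (hG : TSZ τ G q Z') :
      TSZ (σ ⊕ τ) (rename Sum.inl F * rename Sum.inr G) (Sum.elim p q) (fun e => Z e * Z' e)
  | pow {σ : Type} (k : ℕ) (hk : 1 ≤ k) (G : MvPolynomial σ ℂ) (p : σ → ℂ) (Z : ℕ → RatFunc ℂ)
      (hG : TSZ σ G p Z) :
      TSZ σ (G ^ k) p (fun e => sb k 0 (Z (e / Nat.gcd e k)))
  | extra {σ τ : Type} (F : MvPolynomial σ ℂ) (p : σ → ℂ) (q : τ → ℂ) (Z : ℕ → RatFunc ℂ)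
      (hF : TSZ σ F p Z) : TSZ (σ ⊕ τ) (rename Sum.inl F) (Sum.elim p q) Z
  | ren {σ τ : Type} (ε : σ ≃ τ) (F : MvPolynomial σ ℂ) (p : σ → ℂ) (Z : ℕ → RatFunc ℂ)
      (hF : TSZ σ F p Z) : TSZ τ (rename ε F) (fun i => p (ε.symm i)) Z
  | jet {σ : Type} [Fintype σ] [DecidableEq σ] (F F' : MvPolynomial σ ℂ) (Z : ℕ → RatFunc ℂ)
      (hF : TSZ σ F 0 Z) (hj : ∀ n, CEq F' F n) : TSZ σ F' 0 Z

end Pool.Agent.J4H50.TT
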