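import Pool.Agent.J4H50.TT.Adm

set_option autoImplicit false
set_option linter.unusedSectionVars false
set_option linter.unusedVariables false

/-! # No local functional equation at a sum: Thom-Sebastiani sums -/

namespace Pool.Agent.J4H50.TT

open MvPolynomial Pool.Agent.J4H50.NI
open Pool.Agent.N103.V (Ev)
open Pool.Agent.N138.BF (tensE tensE_apply prodE_ind prodE_ext mulEl mulEr pdEl pdEr conv
  conv_apply pdE_ll pdE_rr pdE_lr pdE_rl)
open scoped TensorProduct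

section Two

variable {σ τ : Type}

/-- falling factorials -/
noncomputable def fa (s : ℂ) (i : ℕ) : ℂ := ∏ t ∈ Finset.range i, (s - (t : ℂ))

theorem fa_zero (s : ℂ) : fa s 0 = 1 := by simp [fa]

theorem fa_succ (s : ℂ) (i : ℕ) : fa s (i + 1) = fa s i * (s - i) := by
  rw [fa, Finset.prod_range_succ, ← fa]

/-- the convolution of two families with weights -/
noncomputable def gam (a b : ℕ → ℂ) (α : ℕ → MvPolynomial σ ℂ →ₗ[ℂ] ℂ)
    (β : ℕ → MvPolynomial τ ℂ →ₗ[ℂ] ℂ) (m : ℕ) : MvPolynomial (σ ⊕ τ) ℂ →ₗ[ℂ] ℂ :=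
  (LinearMap.mul' ℂ ℂ).comp (conv (fun i => a i • α i) (fun j => b j • β j) m)

theorem gam_apply (a b : ℕ → ℂ) (α : ℕ → MvPolynomial σ ℂ →ₗ[ℂ] ℂ)
    (β : ℕ → MvPolynomial τ ℂ →ₗ[ℂ] ℂ) (m : ℕ) (u : MvPolynomial σ ℂ) (v : MvPolynomial τ ℂ) :
    gam a b α β m (rename Sum.inl u * rename Sum.inr v) =
      ∑ p ∈ Finset.HasAntidiagonal.antidiagonal m, (a p.1 * α p.1 u) * (b p.2 * β p.2 v) := by
  rw [gam, LinearMap.comp_apply, conv_apply, map_sum]
  refine Finset.sum_congr rfl fun p _ => ?_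
  rw [LinearMap.mul'_apply, LinearMap.smul_apply, LinearMap.smul_apply, smul_eq_mul, smul_eq_mul]

/-- multiplication -/
theorem gam_mu (a b : ℕ → ℂ) (α : ℕ → MvPolynomial σ ℂ →ₗ[ℂ] ℂ)
    (β : ℕ → MvPolynomial τ ℂ →ₗ[ℂ] ℂ) (m : ℕ) (u : MvPolynomial σ ℂ) (v : MvPolynomial τ ℂ)
    (q : MvPolynomial (σ ⊕ τ) ℂ) :
    gam a b α β m ((rename Sum.inl u * rename Sum.inr v) * q) =
      gam a b (mu u α) (mu v β) m q := by
  refine prodE_ind (p := fun q => gam a b α β m ((rename Sum.inl u * rename Sum.inr v) * q) =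
      gam a b (mu u α) (mu v β) m q) (fun u' v' => ?_) (fun x y hx hy => ?_) q
  · have e : (rename Sum.inl u * rename Sum.inr v) * (rename Sum.inl u' * rename Sum.inr v') =
        (rename Sum.inl (u * u') * rename Sum.inr (v * v') : MvPolynomial (σ ⊕ τ) ℂ) := by
      rw [map_mul, map_mul]
      ring
    rw [e, gam_apply, gam_apply]
    rfl
  · rw [mul_add, map_add, map_add, hx, hy]

/-- the shift -/
theorem gam_shift {s1 s2 : ℂ} {F : MvPolynomial σ ℂ} {G : MvPolynomial τ ℂ}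
    {α : ℕ → MvPolynomial σ ℂ →ₗ[ℂ] ℂ} {β : ℕ → MvPolynomial τ ℂ →ₗ[ℂ] ℂ}
    (hα : Sft F α) (hα0 : ∀ u, α 0 (F * u) = 0) (hβ : Sft G β) (hβ0 : ∀ v, β 0 (G * v) = 0)
    (m : ℕ) (q : MvPolynomial (σ ⊕ τ) ℂ) :
    gam (fa s1) (fa s2) α β (m + 1) ((rename Sum.inl F + rename Sum.inr G) * q) =
      (s1 + s2 - m) * gam (fa s1) (fa s2) α β m q := by
  refine prodE_ind (p := fun q => gam (fa s1) (fa s2) α β (m + 1)
    ((rename Sum.inl F + rename Sum.inr G) * q) = (s1 + s2 - m) * gam (fa s1) (fa s2) α β m q)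
    (fun u v => ?_) (fun x y hx hy => ?_) q
  · rw [add_mul, mulEl, mulEr, map_add, gam_apply, gam_apply, gam_apply,
      Finset.Nat.sum_antidiagonal_succ, Finset.Nat.sum_antidiagonal_succ']
    simp only [hα0, hβ0, mul_zero, zero_mul, zero_add]
    rw [← Finset.sum_add_distrib, Finset.mul_sum]
    refine Finset.sum_congr rfl fun p hp => ?_
    rw [Finset.HasAntidiagonal.mem_antidiagonal] at hp
    rw [hα, hβ, fa_succ, fa_succ, ← hp]
    push_cast
    ring
  · rw [mul_add, map_add, map_add, mul_add, hx, hy]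

/-- derivatives in the first variables -/
theorem gam_dl {s1 s2 : ℂ} {F : MvPolynomial σ ℂ} {G : MvPolynomial τ ℂ}
    {α : ℕ → MvPolynomial σ ℂ →ₗ[ℂ] ℂ} {β : ℕ → MvPolynomial τ ℂ →ₗ[ℂ] ℂ}
    (hα : Sft F α) (hα0 : ∀ u, α 0 (F * u) = 0) (hβ : Sft G β) (hβ0 : ∀ v, β 0 (G * v) = 0)
    (i : σ) (hαi : ∀ u, α 0 (pderiv i F * u) = 0)
    (m : ℕ) (q : MvPolynomial (σ ⊕ τ) ℂ) :
    gam (fa s1) (fa s2) α β (m + 1)
        (SS (s1 + s2) (rename Sum.inl F + rename Sum.inr G) m (Sum.inl i) q) =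
      (s1 + s2 - m) * gam (fa s1) (fa s2) (de s1 F i α) β m q := by
  unfold SS
  rw [map_add, gam_shift hα hα0 hβ hβ0, mul_assoc, ← smul_eq_C_mul, map_smul, smul_eq_mul,
    ← mul_add, map_add, pdE_ll, pdE_lr, add_zero]
  congr 1
  refine prodE_ind (p := fun q => gam (fa s1) (fa s2) α β m (pderiv (Sum.inl i) q) +
    gam (fa s1) (fa s2) α β (m + 1) (rename Sum.inl (pderiv i F) * q) =
      gam (fa s1) (fa s2) (de s1 F i α) β m q) (fun u v => ?_) (fun x y hx hy => ?_) q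
  · rw [pdEl, mulEl, gam_apply, gam_apply, gam_apply, Finset.Nat.sum_antidiagonal_succ]
    simp only [hαi, mul_zero, zero_mul, zero_add]
    rw [← Finset.sum_add_distrib]
    refine Finset.sum_congr rfl fun p hp => ?_
    rw [de_eq hα, fa_succ]
    ring
  · rw [map_add, mul_add, map_add, map_add, map_add, ← hx, ← hy]
    ring

/-- derivatives in the second variables -/
theorem gam_dr {s1 s2 : ℂ} {F : MvPolynomial σ ℂ} {G : MvPolynomial τ ℂ}
    {α : ℕ → MvPolynomial σ ℂ →ₗ[ℂ] ℂ} {β : ℕ → MvPolynomial τ ℂ →ₗ[ℂ] ℂ}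
    (hα : Sft F α) (hα0 : ∀ u, α 0 (F * u) = 0) (hβ : Sft G β) (hβ0 : ∀ v, β 0 (G * v) = 0)
    (i : τ) (hβi : ∀ u, β 0 (pderiv i G * u) = 0)
    (m : ℕ) (q : MvPolynomial (σ ⊕ τ) ℂ) :
    gam (fa s1) (fa s2) α β (m + 1)
        (SS (s1 + s2) (rename Sum.inl F + rename Sum.inr G) m (Sum.inr i) q) =
      (s1 + s2 - m) * gam (fa s1) (fa s2) α (de s2 G i β) m q := by
  unfold SS
  rw [map_add, gam_shift hα hα0 hβ hβ0, mul_assoc, ← smul_eq_C_mul, map_smul, smul_eq_mul,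
    ← mul_add, map_add, pdE_rr, pdE_rl, zero_add]
  congr 1
  refine prodE_ind (p := fun q => gam (fa s1) (fa s2) α β m (pderiv (Sum.inr i) q) +
    gam (fa s1) (fa s2) α β (m + 1) (rename Sum.inr (pderiv i G) * q) =
      gam (fa s1) (fa s2) α (de s2 G i β) m q) (fun u v => ?_) (fun x y hx hy => ?_) q
  · rw [pdEr, mulEr, gam_apply, gam_apply, gam_apply, Finset.Nat.sum_antidiagonal_succ']
    simp only [hβi, mul_zero, zero_mul, zero_add]
    rw [← Finset.sum_add_distrib]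
    refine Finset.sum_congr rfl fun p hp => ?_
    rw [de_eq hβ, fa_succ]
    ring
  · rw [map_add, mul_add, map_add, map_add, map_add, ← hx, ← hy]
    ring

/-- the convolution vanishes on the module of the sum -/
theorem gam_KI {s1 s2 : ℂ} {F : MvPolynomial σ ℂ} {G : MvPolynomial τ ℂ} (k : ℕ) :
    ∀ q ∈ KI (s1 + s2) (rename Sum.inl F + rename Sum.inr G : MvPolynomial (σ ⊕ τ) ℂ) k,
      ∀ (α : ℕ → MvPolynomial σ ℂ →ₗ[ℂ] ℂ) (β : ℕ → MvPolynomial τ ℂ →ₗ[ℂ] ℂ),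
        Adm s1 F α → Adm s2 G β → gam (fa s1) (fa s2) α β k q = 0 := by
  have h0F : ∀ α : ℕ → MvPolynomial σ ℂ →ₗ[ℂ] ℂ, Adm s1 F α → ∀ u, α 0 (F * u) = 0 :=
    fun α h u => h.zero 0 _ (Ideal.mul_mem_right _ _ (KI_F s1 F))
  have h0G : ∀ α : ℕ → MvPolynomial τ ℂ →ₗ[ℂ] ℂ, Adm s2 G α → ∀ u, α 0 (G * u) = 0 :=
    fun α h u => h.zero 0 _ (Ideal.mul_mem_right _ _ (KI_F s2 G))
  have hiF : ∀ α : ℕ → MvPolynomial σ ℂ →ₗ[ℂ] ℂ, Adm s1 F α → ∀ i u,
      α 0 (pderiv i F * u) = 0 :=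
    fun α h i u => h.zero 0 _ (Ideal.mul_mem_right _ _ (KI_D s1 F i))
  have hiG : ∀ α : ℕ → MvPolynomial τ ℂ →ₗ[ℂ] ℂ, Adm s2 G α → ∀ i u,
      α 0 (pderiv i G * u) = 0 :=
    fun α h i u => h.zero 0 _ (Ideal.mul_mem_right _ _ (KI_D s2 G i))
  refine KI_ind (s1 + s2) (fun k q => ∀ (α : ℕ → MvPolynomial σ ℂ →ₗ[ℂ] ℂ)
    (β : ℕ → MvPolynomial τ ℂ →ₗ[ℂ] ℂ), Adm s1 F α → Adm s2 G β →
      gam (fa s1) (fa s2) α β k q = 0) ?_ ?_ (fun i => ?_) (fun k a b ha hb => ?_)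
    (fun k a q hq => ?_) (fun k q _ hq => ?_) (fun k i q _ hq => ?_) k
  · intro α β _ _
    rw [map_zero]
  · intro α β hα hβ
    have e : (rename Sum.inl F + rename Sum.inr G : MvPolynomial (σ ⊕ τ) ℂ) =
        rename Sum.inl F * rename Sum.inr 1 + rename Sum.inl 1 * rename Sum.inr G := by
      rw [map_one, map_one, mul_one, one_mul]
    rw [e, map_add, gam_apply, gam_apply, Finset.Nat.antidiagonal_zero, Finset.sum_singleton,
      Finset.sum_singleton]
    have h1 := h0F α hα 1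
    have h2 := h0G β hβ 1
    rw [mul_one] at h1 h2
    rw [h1, h2]
    ring
  · intro α β hα hβ
    rcases i with i | i
    · have e : pderiv (Sum.inl i) (rename Sum.inl F + rename Sum.inr G : MvPolynomial (σ ⊕ τ) ℂ)
          = rename Sum.inl (pderiv i F) * rename Sum.inr 1 := by
        rw [map_add, pdE_ll, pdE_lr, map_one, mul_one, add_zero]
      rw [e, gam_apply, Finset.Nat.antidiagonal_zero, Finset.sum_singleton]
      have h1 := hiF α hα i 1
      rw [mul_one] at h1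
      rw [h1]
      ring
    · have e : pderiv (Sum.inr i) (rename Sum.inl F + rename Sum.inr G : MvPolynomial (σ ⊕ τ) ℂ)
          = rename Sum.inl 1 * rename Sum.inr (pderiv i G) := by
        rw [map_add, pdE_rr, pdE_rl, map_one, one_mul, zero_add]
      rw [e, gam_apply, Finset.Nat.antidiagonal_zero, Finset.sum_singleton]
      have h1 := hiG β hβ i 1
      rw [mul_one] at h1
      rw [h1]
      ring
  · intro α β hα hβ
    rw [map_add, ha α β hα hβ, hb α β hα hβ, add_zero]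
  · intro α β hα hβ
    refine prodE_ind (p := fun a => gam (fa s1) (fa s2) α β k (a * q) = 0) (fun u v => ?_)
      (fun x y hx hy => ?_) a
    · rw [gam_mu]
      exact hq _ _ (hα.mu u) (hβ.mu v)
    · rw [add_mul, map_add, hx, hy, add_zero]
  · intro α β hα hβ
    rw [gam_shift hα.sft (h0F α hα) hβ.sft (h0G β hβ), hq α β hα hβ, mul_zero]
  · intro α β hα hβ
    rcases i with i | i
    · rw [gam_dl hα.sft (h0F α hα) hβ.sft (h0G β hβ) i (hiF α hα i), hq _ _ (hα.de i) hβ,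
        mul_zero]
    · rw [gam_dr hα.sft (h0F α hα) hβ.sft (h0G β hβ) i (hiG β hβ i), hq _ _ hα (hβ.de i),
        mul_zero]

/-- a point where the polynomial does not vanish has all functional equations -/
theorem eval_zero_of_not {p : σ → ℂ} {F : MvPolynomial σ ℂ} {s : ℂ} (h : ¬ LEv p F s) :
    eval p F = 0 := by
  by_contra h0
  exact h ⟨F, h0, Ev_of_KI s (k := 0) (by rw [pow_zero, one_mul]; exact KI_F s F)⟩

theorem eval_pd_of_not {p : σ → ℂ} {F : MvPolynomial σ ℂ} {s : ℂ} (h : ¬ LEv p F s) (i : σ) :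
    eval p (pderiv i F) = 0 := by
  by_contra h0
  exact h ⟨pderiv i F, h0, Ev_of_KI s (k := 0) (by rw [pow_zero, one_mul]; exact KI_D s F i)⟩

theorem eval_inl (p : σ → ℂ) (q : τ → ℂ) (F : MvPolynomial σ ℂ) :
    eval (Sum.elim p q) (rename Sum.inl F) = eval p F := by
  rw [eval_rename]
  rfl

theorem eval_inr (p : σ → ℂ) (q : τ → ℂ) (F : MvPolynomial τ ℂ) :
    eval (Sum.elim p q) (rename Sum.inr F) = eval q F := by
  rw [eval_rename]
  rfl

/-- a sum in separate variables which vanishes -/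
theorem sum_ne {F : MvPolynomial σ ℂ} {G : MvPolynomial τ ℂ} (hF : F ≠ 0) {p : σ → ℂ} {q : τ → ℂ}
    (hp : eval p F = 0) (hq : eval q G = 0) :
    (rename Sum.inl F + rename Sum.inr G : MvPolynomial (σ ⊕ τ) ℂ) ≠ 0 := by
  intro h
  apply hF
  have h1 := congrArg (aeval (Sum.elim (fun i => (X i : MvPolynomial σ ℂ)) fun j => C (q j))) h
  rw [map_add, aeval_rename, aeval_rename, map_zero] at h1
  have h2 : aeval (Sum.elim (fun i => (X i : MvPolynomial σ ℂ)) (fun j => C (q j)) ∘ Sum.inl) F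
      = F := aeval_X_left_apply F
  have h3 : aeval (Sum.elim (fun i => (X i : MvPolynomial σ ℂ)) (fun j => C (q j)) ∘ Sum.inr) G
      = C (eval q G) := by
    clear h1 h2 h hq
    induction G using MvPolynomial.induction_on with
    | C a => rw [aeval_C, eval_C, algebraMap_eq]
    | add a b ha hb => rw [map_add, map_add, ha, hb, C_add]
    | mul_X a i ha =>
      rw [map_mul, map_mul, ha, aeval_X, eval_X, C_mul]
      rfl
  rw [h2, h3, hq, C_0, add_zero] at h1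
  exact h1

/-- **Thom-Sebastiani for the missing functional equations.** -/
theorem not_LEv_sum {F : MvPolynomial σ ℂ} {G : MvPolynomial τ ℂ} (hF : F ≠ 0) (hG : G ≠ 0)
    {p : σ → ℂ} {q : τ → ℂ} {s1 s2 : ℂ} (h1 : ¬ LEv p F s1) (h2 : ¬ LEv q G s2)
    (h12 : ∀ m : ℕ, s1 + s2 ≠ m) :
    ¬ LEv (Sum.elim p q) (rename Sum.inl F + rename Sum.inr G) (s1 + s2) := by
  rintro ⟨H, hH, hE⟩
  obtain ⟨α, hα, hα0⟩ := exists_adm hF h1
  obtain ⟨β, hβ, hβ0⟩ := exists_adm hG h2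
  obtain ⟨k, hk⟩ := KI_of_Ev _ (sum_ne hF (eval_zero_of_not h1) (eval_zero_of_not h2)) hE
  have h3 := gam_KI k _ hk α β hα hβ
  have h4 : ∀ k, gam (fa s1) (fa s2) α β k ((rename Sum.inl F + rename Sum.inr G) ^ k * H) = 0 →
      gam (fa s1) (fa s2) α β 0 H = 0 := by
    intro k
    induction k with
    | zero => intro h; simpa using h
    | succ k ih =>
      intro h
      rw [pow_succ', mul_assoc, gam_shift hα.sft
        (fun u => hα.zero 0 _ (Ideal.mul_mem_right _ _ (KI_F s1 F))) hβ.sft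
        (fun u => hβ.zero 0 _ (Ideal.mul_mem_right _ _ (KI_F s2 G)))] at h
      exact ih ((mul_eq_zero.1 h).resolve_left (sub_ne_zero.2 (h12 k)))
  have h5 := h4 k h3
  have h6 : ∀ H : MvPolynomial (σ ⊕ τ) ℂ, gam (fa s1) (fa s2) α β 0 H =
      eval (Sum.elim p q) H := by
    intro H
    refine prodE_ind (p := fun H => gam (fa s1) (fa s2) α β 0 H = eval (Sum.elim p q) H)
      (fun u v => ?_) (fun x y hx hy => ?_) H
    · rw [gam_apply, Finset.Nat.antidiagonal_zero, Finset.sum_singleton, map_mul, eval_inl,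
        eval_inr, fa_zero, fa_zero, hα0, hβ0]
      ring
    · rw [map_add, map_add, hx, hy]
  exact hH (by rw [← h6]; exact h5)

end Two

end Pool.Agent.J4H50.TT
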